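import Mathlib
import Pool.Agent.P.MP_b9f29c_an.Cone

/-!
A separable, nuclear, stably finite C*-algebra that is not locally approximable by type I
C*-subalgebras: the unitized cone over the Cuntz-Toeplitz algebra on two generators.
-/

open scoped ComplexOrder CStarAlgebra

namespace Pool.Agent.Results.MP_b9f29c_an.NotLocallyTypeI

open Pool.Agent.P.MP_b9f29c_an

/-- Nuclearity: the identity map is a point-norm limit of compositions of completely positive
contractions through complex matrix algebras. -/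
def Nuclear (A : Type) [CStarAlgebra A] [PartialOrder A] [StarOrderedRing A] : Prop :=
  ∀ (F : Finset A) (ε : ℝ), 0 < ε →
    ∃ (n : ℕ) (φ : CompletelyPositiveMap A (CStarMatrix (Fin n) (Fin n) ℂ))
      (ψ : CompletelyPositiveMap (CStarMatrix (Fin n) (Fin n) ℂ) A),
      (∀ x, ‖φ x‖ ≤ ‖x‖) ∧ (∀ y, ‖ψ y‖ ≤ ‖y‖) ∧ ∀ x ∈ F, ‖ψ (φ x) - x‖ < ε

/-- Stable finiteness of a unital C*-algebra: isometries in matrix algebras over it are unitary. -/
def StablyFinite (A : Type) [CStarAlgebra A] : Prop :=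
  ∀ (n : ℕ) (v : Matrix (Fin n) (Fin n) A), star v * v = 1 → v * star v = 1

/-- `S` is the image of `B` under a star homomorphism. -/
def IsImage (B : Type) [NonUnitalCStarAlgebra B] {E : Type} [NonUnitalCStarAlgebra E]
    (S : Set E) : Prop :=
  ∃ π : B →⋆ₙₐ[ℂ] E, Set.range π = S

/-- A set of operators is irreducible: not all zero, and no nontrivial closed invariant
subspace. -/
def Irred {H : Type} [NormedAddCommGroup H] [InnerProductSpace ℂ H] (S : Set (H →L[ℂ] H)) :
    Prop :=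
  (∃ T ∈ S, T ≠ 0) ∧ ∀ K : Submodule ℂ H, IsClosed (K : Set H) →
    (∀ T ∈ S, ∀ x ∈ K, T x ∈ K) → K = ⊥ ∨ K = ⊤

/-- Type I: the image of every irreducible representation contains the compact operators. -/
def TypeI (B : Type) [NonUnitalCStarAlgebra B] : Prop :=
  ∀ (H : Type) [NormedAddCommGroup H] [InnerProductSpace ℂ H] [CompleteSpace H]
    (S : Set (H →L[ℂ] H)), IsImage B S → Irred S → ∀ T : H →L[ℂ] H, IsCompactOperator T → T ∈ S

/-- Local approximability by type I C*-subalgebras. -/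
def LocallyTypeI (A : Type) [CStarAlgebra A] : Prop :=
  ∀ (F : Finset A) (ε : ℝ), 0 < ε →
    ∃ (B : NonUnitalStarSubalgebra ℂ A) (_ : IsClosed (B : Set A)),
      TypeI B ∧ ∀ x ∈ F, Metric.infDist x (B : Set A) < ε

theorem result : ∃ (A : Type) (_ : CStarAlgebra A) (_ : PartialOrder A) (_ : StarOrderedRing A),
    TopologicalSpace.SeparableSpace A ∧ Nuclear A ∧ StablyFinite A ∧ ¬ LocallyTypeI A := by
  classical
  obtain ⟨F⟩ := exists_fockData
  obtain ⟨A, _, hsep, ⟨C⟩⟩ := exists_coneData F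
  let := CStarAlgebra.spectralOrder A
  have := CStarAlgebra.spectralOrderedRing A
  refine ⟨A, inferInstance, inferInstance, inferInstance, hsep, C.cpap_cone, C.stablyFinite_cone,
    fun h => ?_⟩
  obtain ⟨B, _, hI, hB⟩ := h (Finset.univ.image C.lift) (1 / 10) (by norm_num)
  obtain ⟨K, _, _, _, π, h0, hirr, T, hT, hT'⟩ := C.exists_irrep_of_near B
    fun i => hB _ (Finset.mem_image_of_mem _ (Finset.mem_univ i))
  obtain ⟨b₀, hb₀⟩ := h0
  obtain ⟨b, hb⟩ := hI K (Set.range π) ⟨π, rfl⟩ ⟨⟨_, ⟨b₀, rfl⟩, hb₀⟩,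
    fun L hL hinv => hirr L hL fun a => hinv _ ⟨a, rfl⟩⟩ T hT
  exact hT' b hb

end Pool.Agent.Results.MP_b9f29c_an.NotLocallyTypeI
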